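import Mathlib
import Pool.Agent.R419.CF.Low
import Pool.Agent.R419.CF.Weak

/-!
# The parity conjecture for 56 percent of the cubic twists `x³ + y³ = D` with one prime `≡ 2` mod `3`

`D` runs over all cube-free numbers prime to `3`, not `±1` modulo `9`, with exactly one prime factor
`≡ 2` modulo `3`, and `E_D : y² + D y = x³` (it is `3`-isogenous to `x³ + y³ = D`; its equation is a
global minimal equation).  The normalization is that of the problem: the centre of the L-function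
`L_E` is `1/2`, `Λ_E(s) = N^(s/2) (2 π)^(-s) Γ(s + 1/2) L_E(s)`.

* `E_D(ℚ)` is finite and `Ш(E_D)[3^∞] = 0` if and only if `D` does not split (a condition on cubic
  residues between the prime factors of `D`), and the proportion of these `D` in the class tends exactly
  to `∏_{i ≥ 1} (1 - 3^{-i}) = 0.5601...`.
* For each such `D` the parity conjecture holds in the strong form: `L_E` is entire, its order at the
  central point is `0`, the sign of every functional equation of `Λ_E` is `+1`, the rank is `0`.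
* So the parity conjecture is true for at least the proportion `∏_{i ≥ 1} (1 - 3^{-i}) - ε` of the `D`
  of the class up to `X`, for every `ε > 0` and every large `X`.

The arithmetic and the squarefree case are joint work of about forty agents, see
`Pool/Agent/Y703/CT/*.lean` and `Pool/Agent/Y703/CX/*.lean`; the extension of the exact proportion to all
cube-free `D` is `Pool/Agent/R419/CF/*.lean` (helper419).
-/

set_option autoImplicit false

open scoped Classical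

namespace Pool.Agent.Results.MP_577099_nt.CubicTwistsParity

/-- the equation `y² + D y = x³` over `ℤ` -/
def W (D : ℕ) : WeierstrassCurve ℤ := { a₁ := 0, a₂ := 0, a₃ := (D : ℤ), a₄ := 0, a₆ := 0 }

/-- the curve `E_D : y² + D y = x³` over `ℚ` -/
def E (D : ℕ) : WeierstrassCurve ℚ := { a₁ := 0, a₂ := 0, a₃ := (D : ℚ), a₄ := 0, a₆ := 0 }

/-- `a_p = p + 1 - #E_D(𝔽_p)` -/
noncomputable def a (D p : ℕ) : ℤ :=
  (p : ℤ) - (Nat.card {q : ZMod p × ZMod p // q.2 ^ 2 + (D : ZMod p) * q.2 = q.1 ^ 3} : ℤ)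

/-- The L-function `L_E` of `E = E_D`, with the centre at `1/2`: the entire function with
`L_E(s - 1/2) = ∏_p (1 - a_p p^(-s) + [p ∤ Δ] p^(1 - 2 s))⁻¹` for `Re s > 3/2` (the product over all
the primes; `Δ = -27 D⁴` is the minimal discriminant). -/
def IsL (D : ℕ) (L : ℂ → ℂ) : Prop :=
  Differentiable ℂ L ∧ ∀ s : ℂ, 3 / 2 < s.re →
    HasProd (fun p : Nat.Primes => (1 - (a D p : ℂ) * ((p : ℕ) : ℂ) ^ (-s) +
      (if (p : ℕ) ∣ 3 * D then 0 else ((p : ℕ) : ℂ) ^ (1 - 2 * s)))⁻¹) (L (s - 1 / 2))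

/-- `Λ_E(s) = N^(s/2) (2 π)^(-s) Γ(s + 1/2) L_E(s)` -/
noncomputable def Lambda (N : ℝ) (L : ℂ → ℂ) (s : ℂ) : ℂ :=
  (N : ℂ) ^ (s / 2) * (2 * Real.pi : ℂ) ^ (-s) * Complex.Gamma (s + 1 / 2) * L s

/-- `w` is the sign of a functional equation `Λ_E(s) = w Λ_E(1 - s)`, in the critical strip, for some
positive real number `N` -/
def IsSign (L : ℂ → ℂ) (w : ℂ) : Prop :=
  ∃ N : ℝ, 0 < N ∧ ∀ s : ℂ, 0 < s.re → s.re < 1 → Lambda N L s = w * Lambda N L (1 - s)

/-- the rank of `E_D(ℚ)` -/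
noncomputable def rank (D : ℕ) : ℕ := Module.finrank ℤ (E D).toAffine.Point

/-- The parity conjecture for `E = E_D`: the L-function `L_E` exists, it is not identically zero, its
order at `1/2` has the parity of the rank, and each sign `w` of a functional equation of `Λ_E` is
`(-1) ^ rank`. -/
def Parity (D : ℕ) : Prop :=
  (∃ L : ℂ → ℂ, IsL D L) ∧ ∀ L : ℂ → ℂ, IsL D L →
    (∃ r : ℕ, analyticOrderAt L (1 / 2) = r ∧ (Even r ↔ Even (rank D))) ∧
    ∀ w : ℂ, IsSign L w → w = (-1) ^ rank D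

/-- both sides of the parity conjecture are `+1`, in the strongest form: `L_E(1/2) ≠ 0` and `E_D(ℚ)` is
finite -/
def BothZero (D : ℕ) : Prop :=
  (∀ L : ℂ → ℂ, IsL D L → L (1 / 2) ≠ 0) ∧ Finite (E D).toAffine.Point

/-- the class: `D` cube-free, prime to `3`, not `±1` modulo `9`, exactly one prime factor
congruent to `2` modulo `3` -/
def Class (D : ℕ) : Prop :=
  D ≠ 0 ∧ (∀ p : ℕ, p.Prime → ¬ p ^ 3 ∣ D) ∧ ¬ 3 ∣ D ∧ D % 9 ≠ 1 ∧ D % 9 ≠ 8 ∧
    ∃ q : ℕ, q.Prime ∧ q % 3 = 2 ∧ q ∣ D ∧ ∀ p : ℕ, p.Prime → p ∣ D → p ≠ q → p % 3 = 1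

/-- `D` is not a product `d₀ d₁ d₂` of coprime factors, at least two of them different from `1`,
such that `d₁ d₂²`, `d₂ d₀²`, `d₀ d₁²` are cubes modulo the primes dividing `d₀`, `d₁`, `d₂` -/
def NoSplit (D : ℕ) : Prop :=
  ∀ d : ZMod 3 → ℕ, ∏ c, d c = D → (∀ c c', c ≠ c' → Nat.Coprime (d c) (d c')) →
    (∀ (c : ZMod 3) (p : ℕ), p.Prime → p ∣ d c →
      ∃ x : ℤ, (p : ℤ) ∣ (d (c + 1) : ℤ) * (d (c + 2) : ℤ) ^ 2 - x ^ 3) →
    ∃ c, ∀ c', c' ≠ c → d c' = 1

/-- `E_D(ℚ)` is finite and `Ш(E_D/ℚ)[3^∞] = 0` -/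
def TrivialThree (D : ℕ) : Prop :=
  Finite (E D).toAffine.Point ∧
    ∀ (n : ℕ) (x : Pool.Agent.TH841.SH.D.Sha (E D)), 3 ^ n • x = 0 → x = 0

open Pool.Agent.Y703.CT (WD EQ)

theorem E_eq (D : ℕ) : EQ (WD D) = E D := by
  unfold Pool.Agent.Y703.CT.EQ Pool.Agent.Y703.CT.WD E WeierstrassCurve.map
  simp

theorem three_iff (D : ℕ) : TrivialThree D ↔ Pool.Agent.Y703.CT.Triv3 D := by
  unfold TrivialThree Pool.Agent.Y703.CT.Triv3
  rw [E_eq]

theorem class_iff (D : ℕ) : Class D ↔ Pool.Agent.Y703.CT.Cls D := by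
  unfold Class Pool.Agent.Y703.CT.Cls Pool.Agent.Y703.CT.Base
  constructor
  · rintro ⟨h1, h2, h3, h4, h5, h6⟩
    exact ⟨⟨h1, h3, h2⟩, h4, h5, h6⟩
  · rintro ⟨⟨h1, h3, h2⟩, h4, h5, h6⟩
    exact ⟨h1, h2, h3, h4, h5, h6⟩

theorem a_eq (D p : ℕ) : Pool.Agent.W97.MT.ap (WD D) p = a D p := by
  unfold Pool.Agent.W97.MT.ap Pool.Agent.W97.MT.affCount a
  have h : ∀ q : ZMod p × ZMod p,
      (((WD D).map (Int.castRingHom (ZMod p))).toAffine.Equation q.1 q.2) ↔
        q.2 ^ 2 + (D : ZMod p) * q.2 = q.1 ^ 3 := by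
    intro q
    rw [Pool.Agent.Y703.CX.eqn_iff]
    simp
  simp only [h]

theorem disc_dvd {p : ℕ} (hp : p.Prime) (D : ℕ) : (p : ℤ) ∣ (WD (D : ℤ)).Δ ↔ p ∣ 3 * D := by
  have hpi : Prime (p : ℤ) := Nat.prime_iff_prime_int.1 hp
  rw [Pool.Agent.Y703.CX.WD_disc]
  have e : (-27 * (D : ℤ) ^ 4) = -(3 ^ 3 * (D : ℤ) ^ 4) := by ring
  have e2 : p ∣ 3 * D ↔ (p : ℤ) ∣ 3 * (D : ℤ) := by
    rw [← Int.natCast_dvd_natCast]
    push_cast
    exact Iff.rfl
  rw [e, dvd_neg, e2]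
  constructor
  · intro h
    rcases hpi.dvd_or_dvd h with h | h
    · exact Dvd.dvd.mul_right (hpi.dvd_of_dvd_pow h) _
    · exact Dvd.dvd.mul_left (hpi.dvd_of_dvd_pow h) _
  · intro h
    rcases hpi.dvd_or_dvd h with h | h
    · exact Dvd.dvd.mul_right (dvd_pow h (by norm_num)) _
    · exact Dvd.dvd.mul_left (dvd_pow h (by norm_num)) _

theorem isL_iff (D : ℕ) (f : ℂ → ℂ) :
    Pool.Agent.Y703.CT.IsL (WD D) f ↔ IsL D (fun s => f (s + 1 / 2)) := by
  unfold Pool.Agent.Y703.CT.IsL IsL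
  have e1 : (fun (s : ℂ) (p : Nat.Primes) => (1 - (a D p : ℂ) * ((p : ℕ) : ℂ) ^ (-s) +
      (if (p : ℕ) ∣ 3 * D then 0 else ((p : ℕ) : ℂ) ^ (1 - 2 * s)))⁻¹) =
      fun (s : ℂ) (p : Nat.Primes) => (1 - (Pool.Agent.W97.MT.ap (WD D) p : ℂ) *
        ((p : ℕ) : ℂ) ^ (-s) +
      (if ((p : ℕ) : ℤ) ∣ (WD D).Δ then 0 else ((p : ℕ) : ℂ) ^ (1 - 2 * s)))⁻¹ := by
    funext s p
    rw [a_eq]
    have h := disc_dvd p.2 D
    by_cases hd : (p : ℕ) ∣ 3 * D
    · rw [if_pos hd, if_pos (h.2 hd)]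
    · rw [if_neg hd, if_neg (fun h' => hd (h.1 h'))]
  have e2 : ∀ (s : ℂ), (fun (p : Nat.Primes) => (1 - (a D p : ℂ) * ((p : ℕ) : ℂ) ^ (-s) +
      (if (p : ℕ) ∣ 3 * D then 0 else ((p : ℕ) : ℂ) ^ (1 - 2 * s)))⁻¹) =
      fun (p : Nat.Primes) => (1 - (Pool.Agent.W97.MT.ap (WD D) p : ℂ) *
        ((p : ℕ) : ℂ) ^ (-s) +
      (if ((p : ℕ) : ℤ) ∣ (WD D).Δ then 0 else ((p : ℕ) : ℂ) ^ (1 - 2 * s)))⁻¹ :=
    fun s => congrFun e1 s
  constructor
  · rintro ⟨h1, h2⟩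
    refine ⟨h1.comp (by fun_prop), fun s hs => ?_⟩
    rw [e2 s]
    have := h2 s hs
    simpa using this
  · rintro ⟨h1, h2⟩
    refine ⟨?_, fun s hs => ?_⟩
    · have h3 : f = (fun s => f (s + 1 / 2)) ∘ fun s => s - 1 / 2 := by
        funext s
        simp
      rw [h3]
      exact h1.comp (by fun_prop)
    · have := h2 s hs
      rw [e2 s] at this
      simpa using this

theorem isL_unique {D : ℕ} {L M : ℂ → ℂ} (hL : IsL D L) (hM : IsL D M) : L = M := by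
  have h1 : AnalyticOnNhd ℂ L Set.univ := fun z _ => hL.1.analyticAt z
  have h2 : AnalyticOnNhd ℂ M Set.univ := fun z _ => hM.1.analyticAt z
  refine h1.eq_of_eventuallyEq h2 (z₀ := 2) ?_
  have h3 : {s : ℂ | 1 < s.re} ∈ nhds (2 : ℂ) :=
    (isOpen_lt continuous_const Complex.continuous_re).mem_nhds (by simp)
  filter_upwards [h3] with s hs
  have hs : 1 < s.re := hs
  have h4 : (3 : ℝ) / 2 < (s + 1 / 2).re := by
    have : (s + 1 / 2).re = s.re + 1 / 2 := by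
      simp
    rw [this]
    linarith
  have h5 := hL.2 _ h4
  have h6 := hM.2 _ h4
  have h7 := h5.unique h6
  simpa using h7

theorem sign_one {L : ℂ → ℂ} (h : L (1 / 2) ≠ 0) {w : ℂ} (hw : IsSign L w) : w = 1 := by
  obtain ⟨N, hN, h1⟩ := hw
  have h2 := h1 (1 / 2) (by norm_num) (by norm_num)
  have e : (1 : ℂ) - 1 / 2 = 1 / 2 := by norm_num
  rw [e] at h2
  have h3 : Lambda N L (1 / 2) ≠ 0 := by
    unfold Lambda
    refine mul_ne_zero (mul_ne_zero (mul_ne_zero ?_ ?_) ?_) h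
    · have : (N : ℂ) ≠ 0 := by exact_mod_cast hN.ne'
      exact (Complex.cpow_ne_zero_iff.2 (Or.inl this))
    · have : (2 * Real.pi : ℂ) ≠ 0 := by
        have := Real.pi_ne_zero
        exact_mod_cast mul_ne_zero two_ne_zero this
      exact (Complex.cpow_ne_zero_iff.2 (Or.inl this))
    · apply Complex.Gamma_ne_zero_of_re_pos
      norm_num
  have h4 : (w - 1) * Lambda N L (1 / 2) = 0 := by linear_combination -h2
  exact sub_eq_zero.1 ((mul_eq_zero.1 h4).resolve_right h3)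

theorem exists_L {D : ℕ} (hD : Class D) : ∃ L, IsL D L := by
  obtain ⟨-, f, hf, -⟩ := Pool.Agent.Y703.CT.fin_all ((class_iff D).1 hD)
  exact ⟨_, (isL_iff D f).1 hf⟩

theorem both {D : ℕ} (hD : Class D) (h : TrivialThree D) : BothZero D := by
  have hC := (class_iff D).1 hD
  have hT := (three_iff D).1 h
  obtain ⟨-, f, hf, u, hu, -, h1, -⟩ := Pool.Agent.Y703.CT.fin_all hC
  have hU := h1.2 hT
  have hf1 := Pool.Agent.Y703.CX.val_ne hC hT.1 hU.1 hu
  refine ⟨fun L hL => ?_, h.1⟩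
  rw [isL_unique hL ((isL_iff D f).1 hf)]
  have e : (1 : ℂ) / 2 + 1 / 2 = 1 := by norm_num
  show f (1 / 2 + 1 / 2) ≠ 0
  rw [e]
  exact hf1

theorem parity_of {D : ℕ} (hD : Class D) (h : BothZero D) : Parity D := by
  obtain ⟨h1, h2⟩ := h
  have hr : rank D = 0 := by
    unfold rank
    exact Pool.Agent.Y687.finrank_zero_of_finite h2
  refine ⟨exists_L hD, fun L hL => ⟨⟨0, ?_, by rw [hr]⟩, fun w hw => ?_⟩⟩
  · rw [Nat.cast_zero]
    exact (hL.1.analyticAt _).analyticOrderAt_eq_zero.2 (h1 L hL)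
  · rw [hr, pow_zero]
    exact sign_one (h1 L hL) hw

theorem result :
    (∃ c : ℝ, 0 < c ∧ ∃ X₀ : ℕ, ∀ X : ℕ, X₀ ≤ X →
      c * X / Real.sqrt (Real.log X) ≤ (((Finset.Icc 1 X).filter fun D => Class D).card : ℝ)) ∧
    (∀ D : ℕ, Class D → (∃ L : ℂ → ℂ, IsL D L) ∧ (TrivialThree D ↔ NoSplit D) ∧
      (TrivialThree D → BothZero D) ∧ (BothZero D → Parity D)) ∧
    (0.56 : ℝ) < ∏' i : ℕ, (1 - (1 / 3 : ℝ) ^ (i + 1)) ∧
    Filter.Tendsto (fun X : ℕ =>
        (((Finset.Icc 1 X).filter fun D => Class D ∧ TrivialThree D).card : ℝ) /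
        (((Finset.Icc 1 X).filter fun D => Class D).card : ℝ)) Filter.atTop
      (nhds (∏' i : ℕ, (1 - (1 / 3 : ℝ) ^ (i + 1)))) ∧
    ∀ ε : ℝ, 0 < ε → ∃ X₀ : ℕ, ∀ X : ℕ, X₀ ≤ X →
      ((∏' i : ℕ, (1 - (1 / 3 : ℝ) ^ (i + 1))) - ε) *
          (((Finset.Icc 1 X).filter fun D => Class D).card : ℝ) ≤
        (((Finset.Icc 1 X).filter fun D => Class D ∧ Parity D ∧ BothZero D).card : ℝ) := by
  have hcrit : ∀ D : ℕ, Class D → (TrivialThree D ↔ NoSplit D) := by
    intro D hC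
    have hC' := (class_iff D).1 hC
    obtain ⟨-, f, -, u, -, -, -, h2⟩ := Pool.Agent.Y703.CT.fin_all hC'
    exact (three_iff D).trans h2
  have e2 : ∀ X : ℕ, (Finset.Icc 1 X).filter (fun D => Class D) =
      (Finset.Icc 1 X).filter fun D => Pool.Agent.Y703.CT.Cls D := by
    intro X
    refine Finset.filter_congr fun D _ => ?_
    rw [class_iff]
  have hlim : Filter.Tendsto (fun X : ℕ =>
        (((Finset.Icc 1 X).filter fun D => Class D ∧ TrivialThree D).card : ℝ) /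
        (((Finset.Icc 1 X).filter fun D => Class D).card : ℝ)) Filter.atTop
      (nhds (∏' i : ℕ, (1 - (1 / 3 : ℝ) ^ (i + 1)))) := by
    have h := Pool.Agent.R419.CF.t_FIN
    unfold Pool.Agent.Y703.CX.c3 at h
    have e1 : ∀ X : ℕ, (Finset.Icc 1 X).filter (fun D => Class D ∧ TrivialThree D) =
        (Finset.Icc 1 X).filter fun D => Pool.Agent.Y703.CT.Cls D ∧
          Pool.Agent.Y703.CT.NoSplit D := by
      intro X
      refine Finset.filter_congr fun D _ => ?_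
      rw [← class_iff]
      exact and_congr_right fun hC => hcrit D hC
    simp only [e1, e2]
    exact h
  refine ⟨?_, fun D hD => ⟨exists_L hD, hcrit D hD, both hD, parity_of hD⟩,
    Pool.Agent.Y461.CX.t_C3.2.2.2, hlim, ?_⟩
  · simp only [e2]
    exact Pool.Agent.R419.CF.low
  · intro ε hε
    obtain ⟨X₀, h⟩ := (Metric.tendsto_atTop.1 hlim) ε hε
    refine ⟨X₀, fun X hX => ?_⟩
    have h2 := h X hX
    rw [Real.dist_eq, abs_lt] at h2
    have h3 := h2.1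
    set A := (((Finset.Icc 1 X).filter fun D => Class D).card : ℝ) with hA
    set B := (((Finset.Icc 1 X).filter fun D => Class D ∧ TrivialThree D).card : ℝ) with hB
    have hA0 : 0 ≤ A := Nat.cast_nonneg _
    have h4 : ((∏' i : ℕ, (1 - (1 / 3 : ℝ) ^ (i + 1))) - ε) * A ≤ B := by
      rcases hA0.eq_or_lt with h0 | h0
      · rw [← h0, mul_zero]
        exact Nat.cast_nonneg _
      · rw [← le_div_iff₀ h0]
        linarith
    refine h4.trans ?_
    rw [hB]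
    norm_cast
    refine Finset.card_le_card fun D hD => ?_
    obtain ⟨a1, a3, a4⟩ := Finset.mem_filter.1 hD
    exact Finset.mem_filter.2 ⟨a1, a3, parity_of a3 (both a3 a4), both a3 a4⟩

end Pool.Agent.Results.MP_577099_nt.CubicTwistsParity
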