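import Mathlib
import Pool.Agent.R421.ET.PF

/-!
# The parity conjecture for the elliptic curves with a rational cyclic subgroup of order four

The elliptic curves `E` over `ℚ` with a rational cyclic subgroup of order `4`, up to isomorphism,
ordered by height; `E'` is the quotient of `E` by its marked point of order two. For every `r ≥ 0` a
positive proportion of the curves has root number `(-1) ^ r` and rank at most `r`, where the
2-Selmer group of `E'` has exactly `2 ^ (r + 2)` elements and the one of `E` has arbitrarily many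
elements. For `r = 0`: for a positive proportion of the curves the parity conjecture holds, the rank
is zero, the root number is one, and the 2-primary part of `Ш(E)` is isomorphic to `(ℤ / 2 ℤ) ^ k`,
where `k` is arbitrarily large.
-/

set_option autoImplicit false

namespace Pool.Agent.Results.MP_577099_nt.FourIsogenyParity

open Filter Topology

open Pool.Agent.Y667.SX (Sel2H)

open Pool.Agent.TH841.SH.D (Sha)

/-- the curve `y² = x³ + A x + B` over `ℚ` -/
def E (A B : ℤ) : WeierstrassCurve ℚ := ⟨0, 0, 0, (A : ℚ), (B : ℚ)⟩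

/-- the coefficient `A = N² - 3 e²`, `t = (e, N)` -/
def cA (t : ℤ × ℤ) : ℤ := t.2 ^ 2 - 3 * t.1 ^ 2

/-- the coefficient `B = 2 e³ - N² e`, `t = (e, N)` -/
def cB (t : ℤ × ℤ) : ℤ := 2 * t.1 ^ 3 - t.2 ^ 2 * t.1

/-- The pairs `t = (e, N)` such that `y² = x³ + A x + B`, `A = cA t`, `B = cB t`, is nonsingular, there
is no prime `p` with `p⁴ ∣ A` and `p⁶ ∣ B`, and the height `max (4 |A|³) (27 B²)` is at most `Z`: the
elliptic curves over `ℚ` of height at most `Z`, up to isomorphism, together with a rational cyclic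
subgroup of order four (see `marked`). -/
def Fam (Z : ℕ) : Set (ℤ × ℤ) :=
  {t | 4 * cA t ^ 3 + 27 * cB t ^ 2 ≠ 0 ∧
    (∀ p : ℕ, p.Prime → ¬ ((p : ℤ) ^ 4 ∣ cA t ∧ (p : ℤ) ^ 6 ∣ cB t)) ∧
    4 * |cA t| ^ 3 ≤ Z ∧ 27 * cB t ^ 2 ≤ Z}

/-- `A = cA (e, N)` and `B = cB (e, N)` if and only if `e` is a root of `x³ + A x + B` and
`3 e² + A = N²`. (Then the points with abscissa `e + N` have order four, their double is `(e, 0)`.) -/
theorem marked (A B e N : ℤ) :
    (A = cA (e, N) ∧ B = cB (e, N)) ↔ (e ^ 3 + A * e + B = 0 ∧ 3 * e ^ 2 + A = N ^ 2) := by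
  unfold cA cB
  constructor
  · rintro ⟨rfl, rfl⟩
    constructor <;> ring
  · rintro ⟨h1, h2⟩
    have hA : A = N ^ 2 - 3 * e ^ 2 := by linarith
    refine ⟨hA, ?_⟩
    rw [hA] at h1
    linarith

/-- The coefficient `A' = -3 e² - 4 N²` of the quotient curve `E' : y² = x³ + A' x + B'` of the curve
`E : y² = x³ + A x + B`, `A = cA t`, `B = cB t`, by the point `(e, 0)` of order two. (With
`X = x - e` the curve `E` is `y² = X (X² + 3 e X + N²)`, and with `X = x + 2 e` the curve `E'` is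
`y² = X (X² - 6 e X + 9 e² - 4 N²) = X (X - (3 e + 2 N)) (X - (3 e - 2 N))`.) -/
def qA (t : ℤ × ℤ) : ℤ := -3 * t.1 ^ 2 - 4 * t.2 ^ 2

/-- the coefficient `B' = 2 e³ - 8 e N²` of the quotient curve -/
def qB (t : ℤ × ℤ) : ℤ := 2 * t.1 ^ 3 - 8 * t.1 * t.2 ^ 2

/-- the proportion of the curves of `S` among the curves of height at most `Z` -/
noncomputable def proportion (S : Set (ℤ × ℤ)) (Z : ℕ) : ℝ :=
  ((Fam Z ∩ S).ncard : ℝ) / (Fam Z).ncard

/-- the rank -/
noncomputable def rank (W : WeierstrassCurve ℚ) : ℕ := Module.finrank ℤ W.toAffine.Point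

/-- the elements of `Ш(W)` whose order is a power of two form a group isomorphic to
`(ℤ / 2 ℤ) ^ k` -/
def ShaTwoElementary (W : WeierstrassCurve ℚ) (k : ℕ) : Prop :=
  ∃ φ : (Fin k → ZMod 2) →+ Sha W, Function.Injective φ ∧
    ∀ x, x ∈ Set.range φ ↔ ∃ j : ℕ, (2 ^ j) • x = 0

/-- The local condition at a completion `K` of `ℚ`: there is a point `(x, y)`, `y ≠ 0`, of
`y² = x³ + A x + B` over `K` such that `(x - e) * d e` is a square for all the integer roots `e` of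
`x³ + A x + B`. (Every class of `E(K) / 2 E(K)` contains a point with `y ≠ 0`.) -/
def Local (K : Type) [Field K] (A B : ℤ) (d : ℤ → ℤ) : Prop :=
  ∃ x y : K, y ≠ 0 ∧ y ^ 2 = x ^ 3 + A * x + B ∧
    ∀ e : ℤ, e ^ 3 + A * e + B = 0 → IsSquare ((x - e) * d e)

/-- The 2-Selmer group of `y² = x³ + A x + B`, a curve with three integer roots. As `E[2]` is the
group of the families of signs with product one indexed by the roots, an element of the 2-Selmer
group is a family of classes of nonzero rational numbers modulo squares indexed by the roots `e`,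
given by squarefree integers `d e` (`d e = 1` if `e` is not a root), which over `ℝ` and over `ℚ_[p]`
for all primes `p` is the family of the classes of `x - e` for a point of the curve. -/
def Sel2 (A B : ℤ) : Set (ℤ → ℤ) :=
  {d | (∀ e, Squarefree (d e)) ∧ (∀ e : ℤ, e ^ 3 + A * e + B ≠ 0 → d e = 1) ∧ Local ℝ A B d ∧
    ∀ (p : ℕ) [Fact p.Prime], Local ℚ_[p] A B d}

/-- `a_p = p + 1 - #V(𝔽_p)`, that is `p` minus the number of the affine solutions of the Weierstrass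
equation modulo `p`; for a prime of multiplicative reduction this is `1` (split) or `-1`
(non-split) -/
noncomputable def ap (V : WeierstrassCurve ℤ) (p : ℕ) : ℤ :=
  p - Nat.card {z : ZMod p × ZMod p // z.2 ^ 2 + V.a₁ * z.1 * z.2 + V.a₃ * z.2 =
    z.1 ^ 3 + V.a₂ * z.1 ^ 2 + V.a₄ * z.1 + V.a₆}

/-- the equation with integer coefficients is nonsingular over `ℚ` and at every prime the reduction
is good or multiplicative (then it is a minimal equation) -/
def Semistable (V : WeierstrassCurve ℤ) : Prop :=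
  V.Δ ≠ 0 ∧ ∀ p : ℕ, p.Prime → (p : ℤ) ∣ V.Δ → ¬ (p : ℤ) ∣ V.c₄

/-- the conductor of a semistable curve -/
def conductor (V : WeierstrassCurve ℤ) : ℕ := ∏ p ∈ V.Δ.natAbs.primeFactors, p

/-- The root number of a semistable curve: the product of the local root numbers `-1` at infinity
and `-a_p` at the primes of bad (multiplicative) reduction. -/
noncomputable def wSemi (V : WeierstrassCurve ℤ) : ℤ :=
  -∏ p ∈ V.Δ.natAbs.primeFactors, (-ap V p)

/-- the quadratic twist by `d` of the curve `V` (the curve `y² = x³ + b₂ x² + 8 b₄ x + 16 b₆`) -/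
def quadTwist (V : WeierstrassCurve ℤ) (d : ℕ) : WeierstrassCurve ℚ :=
  ⟨0, (d : ℚ) * V.b₂, 0, 8 * (d : ℚ) ^ 2 * V.b₄, 16 * (d : ℚ) ^ 3 * V.b₆⟩

/-- `w` is the root number of `W`, for the quadratic twists `W` of a semistable curve `V` of conductor
`N` by a positive fundamental discriminant `d ≡ 1` modulo `4` prime to `N` (`d = 1` allowed): it is
`χ_d(-N) w_V`, where `χ_d(-N) = χ_d(N)` is the Jacobi symbol `(N / d)` -/
def HasRootNumber (W : WeierstrassCurve ℚ) (w : ℤ) : Prop :=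
  ∃ (V : WeierstrassCurve ℤ) (d : ℕ), Semistable V ∧ Squarefree d ∧ d % 4 = 1 ∧
    d.Coprime V.Δ.natAbs ∧ (∃ C : WeierstrassCurve.VariableChange ℚ, C • W = quadTwist V d) ∧
    w = jacobiSym (conductor V) d * wSemi V

/-- the parity conjecture for `W` (root number `(-1) ^ rank`) -/
def Parity (W : WeierstrassCurve ℚ) : Prop := HasRootNumber W ((-1) ^ rank W)

/-- the curves `E` with root number `(-1) ^ r` and rank at most `r`, where the 2-Selmer group of the
quotient curve `E'` has `2 ^ (r + 2)` elements, and the 2-Selmer group of `E` is finite with more than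
`2 ^ s` elements -/
def Good (r s : ℕ) : Set (ℤ × ℤ) :=
  {t | HasRootNumber (E (cA t) (cB t)) ((-1) ^ r) ∧ rank (E (cA t) (cB t)) ≤ r ∧
    (Sel2 (qA t) (qB t)).Finite ∧ (Sel2 (qA t) (qB t)).ncard = 2 ^ (r + 2) ∧
    Finite (Sel2H (E (cA t) (cB t))) ∧ 2 ^ s < Nat.card (Sel2H (E (cA t) (cB t)))}

/-- the curves `E` with root number one and rank zero (so the parity conjecture holds) such that the
2-primary part of the Tate-Shafarevich group is isomorphic to `(ℤ / 2 ℤ) ^ k`, `k > s` -/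
def GoodZero (s : ℕ) : Set (ℤ × ℤ) :=
  {t | Parity (E (cA t) (cB t)) ∧ HasRootNumber (E (cA t) (cB t)) 1 ∧ rank (E (cA t) (cB t)) = 0 ∧
    ∃ k, s < k ∧ ShaTwoElementary (E (cA t) (cB t)) k}

section proof

open Pool.Agent.R421.PR (TP fam_R rank_TP cc_q)

open Pool.Agent.R421.EK (Fht Hb Cc FM fht_fin mn_lim mn_zero mn_tight mn_minimal marg Mn disc_iff Oks
  fam_sel full_sel Shq fam_avg fam_zero fam_struct mn_big FM_le FM_union)

open Pool.Agent.R431.NO (OkS)

lemma fam_eq (Z : ℕ) : Fam Z = {t | Fht (4, 27) Z t ∧ Mn t} := by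
  ext t
  unfold Fam Fht Hb
  rw [Set.mem_ofPred_eq, Set.mem_ofPred_eq]
  have h := disc_iff t.1 t.2
  have hm : Mn t ↔ ∀ p : ℕ, p.Prime → ¬ ((p : ℤ) ^ 4 ∣ cA t ∧ (p : ℤ) ^ 6 ∣ cB t) := mn_minimal t
  constructor
  · rintro ⟨h1, h4, h2, h3⟩
    refine ⟨⟨⟨?_, ?_⟩, h.1 h1⟩, hm.2 h4⟩
    · change ((4 : ℕ) : ℤ) * |cA t| ^ 3 ≤ Z
      exact_mod_cast h2
    · change ((27 : ℕ) : ℤ) * cB t ^ 2 ≤ Z
      exact_mod_cast h3
  · rintro ⟨⟨⟨h2, h3⟩, h1⟩, h4⟩
    refine ⟨h.2 h1, hm.1 h4, ?_, ?_⟩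
    · have h2' : ((4 : ℕ) : ℤ) * |cA t| ^ 3 ≤ Z := h2
      exact_mod_cast h2'
    · have h3' : ((27 : ℕ) : ℤ) * cB t ^ 2 ≤ Z := h3
      exact_mod_cast h3'

lemma cc : Cc (4, 27) := ⟨by norm_num, le_rfl, by norm_num, le_rfl⟩

lemma fin (Z : ℕ) : (Fam Z).Finite := by
  refine (fht_fin cc Z).subset ?_
  rw [fam_eq]
  exact fun t ht => ht.1

lemma prop_eq (S : Set (ℤ × ℤ)) (Z : ℕ) :
    proportion S Z = (FM (4, 27) Z S : ℝ) / (FM (4, 27) Z Set.univ : ℝ) := by
  unfold proportion FM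
  have e1 : {t : ℤ × ℤ | (Fht (4, 27) Z t ∧ Mn t) ∧ t ∈ S} = Fam Z ∩ S := by
    rw [fam_eq]
    rfl
  have e2 : {t : ℤ × ℤ | (Fht (4, 27) Z t ∧ Mn t) ∧ t ∈ (Set.univ : Set (ℤ × ℤ))} = Fam Z := by
    rw [fam_eq]
    ext t
    simp
  rw [e1, e2]

lemma prop_mono {S S' : Set (ℤ × ℤ)} (h : S ⊆ S') (Z : ℕ) : proportion S Z ≤ proportion S' Z := by
  unfold proportion
  refine div_le_div_of_nonneg_right ?_ (Nat.cast_nonneg _)
  exact_mod_cast Set.ncard_le_ncard (Set.inter_subset_inter_right _ h)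
    ((fin Z).subset Set.inter_subset_left)

lemma card_pos : ∃ Z₀ : ℕ, ∀ Z : ℕ, Z₀ ≤ Z → 0 < (Fam Z).ncard := by
  obtain ⟨R, Y0, h⟩ := mn_tight (n := 1) 0 (4, 27) cc (fun _ => 1) (fun _ => one_ne_zero)
    (fun l m h => absurd (Subsingleton.elim l m) h) 1 one_pos
  refine ⟨Y0, fun Z hZ => ?_⟩
  have h1 := (h Z hZ).1
  unfold FM at h1
  rw [fam_eq]
  refine lt_of_lt_of_le h1 (le_of_eq ?_)
  congr 1
  ext t
  simp

/-- the twist by one -/
def tw1 (t : ℤ × ℤ) : WeierstrassCurve ℚ := E (1 ^ 2 * cA t) (1 ^ 3 * cB t)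

lemma tw1_eq (t : ℤ × ℤ) : tw1 t = E (cA t) (cB t) := by
  unfold tw1
  rw [one_pow, one_pow, one_mul, one_mul]

lemma E_one (t : ℤ × ℤ) : E (cA t) (cB t) =
    Shq ((1 : ℤ) ^ 2 * (t.2 ^ 2 - 3 * t.1 ^ 2)) ((1 : ℤ) ^ 3 * (2 * t.1 ^ 3 - t.2 ^ 2 * t.1)) := by
  unfold E cA cB Shq
  simp only [one_pow, one_mul]

/-- many elements -/
lemma big (s : ℕ) : Tendsto (proportion {t | Finite (Sel2H (E (cA t) (cB t))) ∧
    2 ^ s < Nat.card (Sel2H (E (cA t) (cB t)))}) atTop (𝓝 1) := by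
  have h := mn_big (4, 27) cc 1 one_ne_zero (fun e N => Real.logb 2 (Nat.card (Sel2H (tw1 (e, N)))))
    (fun e N => Finite (Sel2H (tw1 (e, N))))
    (fun R => ⟨R + ((R + 1 : ℕ) : ℝ) + ((R + 2 : ℕ) : ℝ), fun e N S h => by
      obtain ⟨-, -, ⟨-, k1, k2⟩, -⟩ := fam_sel h
      have k1' : S - R ≤ Real.logb 2 (Nat.card (Sel2H (tw1 (e, N)))) := k1
      have k2' : Real.logb 2 (Nat.card (Sel2H (tw1 (e, N)))) ≤
        S + R + ((R + 1 : ℕ) : ℝ) + ((R + 2 : ℕ) : ℝ) := k2
      have hR : (0 : ℝ) ≤ R := Nat.cast_nonneg _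
      rw [abs_le]
      push_cast at k1' k2' ⊢
      constructor <;> linarith⟩)
    (fun R e N S h => (fam_sel h).2.2.1.1) (s : ℝ)
  refine h.congr fun Z => ?_
  rw [prop_eq]
  congr 3
  ext t
  change (Finite (Sel2H (tw1 t)) ∧ (s : ℝ) < Real.logb 2 (Nat.card (Sel2H (tw1 t)))) ↔
    (Finite (Sel2H (E (cA t) (cB t))) ∧ 2 ^ s < Nat.card (Sel2H (E (cA t) (cB t))))
  rw [← tw1_eq]
  refine and_congr Iff.rfl ?_
  by_cases h0 : Nat.card (Sel2H (tw1 t)) = 0
  · rw [h0, Nat.cast_zero, Real.logb_zero]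
    constructor
    · intro h
      exact absurd h (not_lt.2 (Nat.cast_nonneg _))
    · intro h
      exact absurd h (by simp)
  · have hpos : (0 : ℝ) < (Nat.card (Sel2H (tw1 t)) : ℝ) := by
      exact_mod_cast Nat.pos_of_ne_zero h0
    rw [Real.lt_logb_iff_rpow_lt (by norm_num) hpos, Real.rpow_natCast]
    exact_mod_cast Iff.rfl

/-- the Tate-Shafarevich groups -/
lemma bigsha (s : ℕ) : Tendsto (proportion {t | {x : Sha (E (cA t) (cB t)) | x + x = 0}.Finite ∧
    2 ^ s < {x : Sha (E (cA t) (cB t)) | x + x = 0}.ncard}) atTop (𝓝 1) := by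
  have h := mn_big (4, 27) cc 1 one_ne_zero
    (fun e N => Real.logb 2 ({x : Sha (tw1 (e, N)) | (2 ^ 1) • x = 0}.ncard))
    (fun e N => {x : Sha (tw1 (e, N)) | (2 ^ 1) • x = 0}.Finite)
    (fun R => ⟨R + ((R + 1 : ℕ) : ℝ) * (1 : ℕ), fun e N S h => by
      obtain ⟨-, k, -⟩ := fam_sel h
      obtain ⟨-, k1, k2⟩ := k 1 le_rfl
      have k1' : S - R ≤ Real.logb 2 ({x : Sha (tw1 (e, N)) | (2 ^ 1) • x = 0}.ncard) := k1
      have k2' : Real.logb 2 ({x : Sha (tw1 (e, N)) | (2 ^ 1) • x = 0}.ncard) ≤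
        S + R + ((R + 1 : ℕ) : ℝ) * (1 : ℕ) := k2
      have hR : (0 : ℝ) ≤ R := Nat.cast_nonneg _
      rw [abs_le]
      push_cast at k1' k2' ⊢
      constructor <;> linarith⟩)
    (fun R e N S h => ((fam_sel h).2.1 1 le_rfl).1) (s : ℝ)
  refine h.congr fun Z => ?_
  rw [prop_eq]
  congr 3
  ext t
  have e1 : tw1 t = E (cA t) (cB t) := tw1_eq t
  have e2 : {x : Sha (tw1 t) | (2 ^ 1) • x = 0} = {x : Sha (tw1 t) | x + x = 0} := by
    ext x
    rw [Set.mem_setOf_eq, Set.mem_setOf_eq, pow_one, two_nsmul]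
  change ({x : Sha (tw1 t) | (2 ^ 1) • x = 0}.Finite ∧
    (s : ℝ) < Real.logb 2 ({x : Sha (tw1 t) | (2 ^ 1) • x = 0}.ncard)) ↔ _
  rw [e2, e1]
  refine and_congr Iff.rfl ?_
  change (s : ℝ) < Real.logb 2 ({x : Sha (E (cA t) (cB t)) | x + x = 0}.ncard) ↔ _
  by_cases h0 : {x : Sha (E (cA t) (cB t)) | x + x = 0}.ncard = 0
  · rw [h0, Nat.cast_zero, Real.logb_zero]
    constructor
    · intro h
      exact absurd h (not_lt.2 (Nat.cast_nonneg _))
    · intro h
      exact absurd h (by simp)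
  · have hpos : (0 : ℝ) < ({x : Sha (E (cA t) (cB t)) | x + x = 0}.ncard : ℝ) := by
      exact_mod_cast Nat.pos_of_ne_zero h0
    rw [Real.lt_logb_iff_rpow_lt (by norm_num) hpos, Real.rpow_natCast]
    exact_mod_cast Iff.rfl

/-- the order of the 2-torsion of an elementary group -/
lemma card_elem {W : WeierstrassCurve ℚ} {k : ℕ} (h : ShaTwoElementary W k) :
    {x : Sha W | x + x = 0}.ncard = 2 ^ k := by
  obtain ⟨φ, h1, h2⟩ := h
  have e : {x : Sha W | x + x = 0} = Set.range φ := by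
    ext x
    rw [h2]
    constructor
    · intro hx
      refine ⟨1, ?_⟩
      rw [pow_one, two_nsmul]
      exact hx
    · intro hx
      obtain ⟨y, rfl⟩ := (h2 x).2 hx
      change φ y + φ y = 0
      rw [← map_add]
      have : y + y = 0 := by
        funext i
        exact CharTwo.add_self_eq_zero (y i)
      rw [this, map_zero]
  rw [e, ← Set.image_univ, Set.ncard_image_of_injective _ h1, Set.ncard_univ, Nat.card_fun,
    Nat.card_zmod, Nat.card_eq_fintype_card, Fintype.card_fin]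

/-- the intersection with a family of density one -/
lemma inter {S1 S2 S : Set (ℤ × ℤ)} {δ : ℝ} (hδ : 0 < δ)
    (h1 : ∀ᶠ Z : ℕ in atTop, δ ≤ proportion S1 Z) (h2 : Tendsto (proportion S2) atTop (𝓝 1))
    (hsub : ∀ Z : ℕ, Fam Z ∩ (S1 ∩ S2) ⊆ S) : ∀ᶠ Z : ℕ in atTop, δ / 2 ≤ proportion S Z := by
  rw [Metric.tendsto_atTop] at h2
  obtain ⟨Z₁, hZ₁⟩ := h2 (δ / 2) (by positivity)
  obtain ⟨Z₂, hZ₂⟩ := card_pos
  filter_upwards [h1, eventually_ge_atTop (Z₁ + Z₂)] with Z h4 hZ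
  have hpos : (0 : ℝ) < (Fam Z).ncard := by exact_mod_cast hZ₂ Z (by omega)
  have h2 := hZ₁ Z (by omega)
  rw [Real.dist_eq] at h2
  have h2' := (abs_lt.1 h2).1
  have h5 : proportion S1 Z ≤ proportion (S1 ∩ S2) Z + (1 - proportion S2 Z) := by
    unfold proportion
    have a1 : (Fam Z ∩ S1).ncard ≤ (Fam Z ∩ (S1 ∩ S2)).ncard + (Fam Z \ (Fam Z ∩ S2)).ncard := by
      refine (Set.ncard_le_ncard ?_ (((fin Z).subset Set.inter_subset_left).union
        ((fin Z).subset Set.diff_subset))).trans (Set.ncard_union_le _ _)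
      intro t ht
      by_cases h : t ∈ S2
      · exact Or.inl ⟨ht.1, ht.2, h⟩
      · exact Or.inr ⟨ht.1, fun h' => h h'.2⟩
    have a2 := Set.ncard_sdiff_add_ncard_of_subset (s := Fam Z ∩ S2) (t := Fam Z)
      Set.inter_subset_left (fin Z)
    have a1' : ((Fam Z ∩ S1).ncard : ℝ) ≤ (Fam Z ∩ (S1 ∩ S2)).ncard + (Fam Z \ (Fam Z ∩ S2)).ncard := by
      exact_mod_cast a1
    have a2' : ((Fam Z \ (Fam Z ∩ S2)).ncard : ℝ) + (Fam Z ∩ S2).ncard = (Fam Z).ncard := by
      exact_mod_cast a2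
    rw [← sub_nonneg]
    have e : ((Fam Z ∩ (S1 ∩ S2)).ncard : ℝ) / (Fam Z).ncard + (1 - ((Fam Z ∩ S2).ncard : ℝ) /
        (Fam Z).ncard) - ((Fam Z ∩ S1).ncard : ℝ) / (Fam Z).ncard =
        ((Fam Z ∩ (S1 ∩ S2)).ncard + ((Fam Z).ncard - (Fam Z ∩ S2).ncard) - (Fam Z ∩ S1).ncard) /
          (Fam Z).ncard := by
      field_simp
    rw [e]
    refine div_nonneg ?_ hpos.le
    linarith
  have h6 : proportion (S1 ∩ S2) Z ≤ proportion S Z := by
    unfold proportion
    refine div_le_div_of_nonneg_right ?_ (Nat.cast_nonneg _)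
    have : (Fam Z ∩ (S1 ∩ S2)).ncard ≤ (Fam Z ∩ S).ncard := by
      refine Set.ncard_le_ncard ?_ ((fin Z).subset Set.inter_subset_left)
      intro t ht
      exact ⟨ht.1, hsub Z ht⟩
    exact_mod_cast this
  linarith

/-- the curves with a given Selmer group of the quotient and root number -/
lemma tp (r : ℕ) : ∃ δ : ℝ, 0 < δ ∧ ∀ᶠ Z : ℕ in atTop, δ ≤ proportion {t | TP r t} Z := by
  classical
  obtain ⟨δ, hδ, Y0, h⟩ := fam_R r
  refine ⟨δ, hδ, ?_⟩
  obtain ⟨Z₂, hZ₂⟩ := card_pos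
  filter_upwards [eventually_ge_atTop (Y0 + Z₂)] with Z hZ
  have hpos : (0 : ℝ) < (Fam Z).ncard := by exact_mod_cast hZ₂ Z (by omega)
  obtain ⟨K, hK⟩ : ∃ K, K = (fin Z).toFinset := ⟨_, rfl⟩
  have hK' : ∀ t, t ∈ K ↔ Fht (4, 27) Z t ∧ Mn t := fun t => by
    rw [hK, Set.Finite.mem_toFinset, fam_eq]
    rfl
  have h3 := h (4, 27) cc Z (by omega) K (K.filter (fun t => TP r t)) hK'
    (fun t => by rw [Finset.mem_filter])
  have hKc : (K.card : ℝ) = (Fam Z).ncard := by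
    rw [hK, ← Set.ncard_eq_toFinset_card _ (fin Z)]
  rw [hKc] at h3
  unfold proportion
  rw [le_div_iff₀ hpos]
  refine h3.trans (le_of_eq ?_)
  rw [← Set.ncard_coe_finset]
  congr 2
  ext t
  rw [Finset.coe_filter, hK]
  simp

lemma good (r s : ℕ) (Z : ℕ) : Fam Z ∩ ({t | TP r t} ∩ {t | Finite (Sel2H (E (cA t) (cB t))) ∧
    2 ^ s < Nat.card (Sel2H (E (cA t) (cB t)))}) ⊆ Good r s := by
  rintro t ⟨k0, k1, k2, k3⟩
  have k0' := k0
  rw [fam_eq] at k0'
  obtain ⟨⟨-, n1, n2⟩, -⟩ := k0'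
  have hr := rank_TP n1 n2 k1
  obtain ⟨t1, t2, t3, t4⟩ := k1
  rw [cc_q] at t1 t2
  refine ⟨t4, ?_, t1, t2, k2, k3⟩
  unfold rank
  rw [E_one t]
  exact hr

lemma goodZero (s : ℕ) (Z : ℕ) : Fam Z ∩ ({t | TP 0 t} ∩
    {t | {x : Sha (E (cA t) (cB t)) | x + x = 0}.Finite ∧
      2 ^ s < {x : Sha (E (cA t) (cB t)) | x + x = 0}.ncard}) ⊆ GoodZero s := by
  rintro t ⟨k0, k1, k2⟩
  have k0' := k0
  rw [fam_eq] at k0'
  obtain ⟨⟨-, n1, n2⟩, -⟩ := k0'
  obtain ⟨-, -, t3, t4⟩ := k1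
  obtain ⟨r0, k, φ, q1, q2⟩ := fam_struct n1 n2 (t3.le)
  have hE := E_one t
  have hr : rank (E (cA t) (cB t)) = 0 := by
    unfold rank
    rw [hE]
    exact r0
  have hw : HasRootNumber (E (cA t) (cB t)) ((-1) ^ 0) := t4
  refine ⟨?_, ?_, hr, ?_⟩
  · unfold Parity
    rw [hr]
    exact hw
  · rw [pow_zero] at hw
    exact hw
  · have hel : ShaTwoElementary (E (cA t) (cB t)) k := by
      rw [hE]
      exact ⟨φ, q1, q2⟩
    refine ⟨k, ?_, hel⟩
    have k3 := k2.2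
    rw [card_elem hel] at k3
    exact (Nat.pow_lt_pow_iff_right (by norm_num : 1 < 2)).1 k3

end proof

/-- **Theorem.** For the elliptic curves `E` over `ℚ` with a rational cyclic subgroup of order four, up
to isomorphism, ordered by height:
* for every `r ≥ 0` there is a `δ > 0` such that for every `s` and all large `Z`, for a proportion at
  least `δ` of the curves of height at most `Z` the root number is `(-1) ^ r`, the rank is at most `r`,
  the 2-Selmer group of the quotient curve `E'` has exactly `2 ^ (r + 2)` elements, and the 2-Selmer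
  group of `E` is finite with more than `2 ^ s` elements;
* there is a `δ > 0` such that for every `s` and all large `Z`, for a proportion at least `δ` of the
  curves of height at most `Z` the parity conjecture holds, the root number is `1`, the rank is `0`,
  and the 2-primary part of the Tate-Shafarevich group is isomorphic to `(ℤ / 2 ℤ) ^ k` with
  `k > s`. -/
theorem result :
    (∀ r : ℕ, ∃ δ : ℝ, 0 < δ ∧ ∀ s : ℕ, ∀ᶠ Z : ℕ in atTop, δ ≤ proportion (Good r s) Z) ∧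
    ∃ δ : ℝ, 0 < δ ∧ ∀ s : ℕ, ∀ᶠ Z : ℕ in atTop, δ ≤ proportion (GoodZero s) Z := by
  constructor
  · intro r
    obtain ⟨δ, hδ, h⟩ := tp r
    exact ⟨δ / 2, by positivity, fun s => inter hδ h (big s) (good r s)⟩
  · obtain ⟨δ, hδ, h⟩ := tp 0
    exact ⟨δ / 2, by positivity, fun s => inter hδ h (bigsha s) (goodZero s)⟩

end Pool.Agent.Results.MP_577099_nt.FourIsogenyParity
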