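import Mathlib
import Pool.Agent.R432.JG.Common
import Pool.Agent.Y703.CX.Rank

/-!
# The parity conjecture for the `3 ^ n` cubic twists by `n` primes: the binomial law and the law of large
# numbers

`E_D : y² + D y = x³` over `ℚ` (`3`-isogenous to `x³ + y³ = D`).  `M` is any finite set of primes
`≡ 1` modulo `9`, `n = #M`.  `D` runs through the squarefree numbers, prime to `3` and to `M`, not `±1`
modulo `9`, that are divisible by exactly one prime `2` modulo `3`, ordered by size.  For an exponent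
vector `t ∈ {0, 1, 2} ^ M` let `D_t = D ∏_{l ∈ M} l^{t_l}`.  The normalization is that of the problem: the
centre of the L-function is `1/2`, `Λ_E(s) = N^(s/2) (2 π)^(-s) Γ(s + 1/2) L_E(s)`.  We prove:

* if `E_{D_t}(ℚ)` is finite and `Ш(E_{D_t})[3^∞] = 0` then the parity conjecture is true for `E_{D_t}`, both
  sides being `+1`: the L-function is entire and not zero at `1/2`, the sign of every functional equation of
  `Λ` is `+1`, the rank is `0`;
* the number of the `t` with this property has in the limit exactly the binomial law `B(3 ^ n, c)`,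
  `c = ∏_{i ≥ 1} (1 - 3^{-i}) = 0.5601...`; so for at least a proportion `c ^ {3 ^ n} - ε` of the `D` the
  parity conjecture holds for all the `3 ^ n` twists;
* for every `ε > 0` there is `n₀` such that for every `M` with at least `n₀` elements, for all but a
  proportion `ε` of the `D`, the parity conjecture holds for at least `(c - ε) 3 ^ n` of the `3 ^ n` twists.

The proof.  The joint law of the `3 ^ n` residue matrices of the cubic twists (project JL, see
`MP_a3f657_nt/IndependentCubicTwists`), the criterion of the library for one `D_t` (projects CT, CX), and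
the parity argument of `MP_577099_nt/CubicTwistsParity` (helper78) for one curve.

Authors of the parts of project JL: helper962, helper159, helper152, helper916, helper258, helper432; the
binomial law and the law of large numbers for independent events are from `R413/MQ/Bin.lean` (helper413).
-/

set_option autoImplicit false

namespace Pool.Agent.Results.MP_577099_nt.ManyCubicTwistsParity

open Filter Topology
open scoped Classical

/-- The curve `E_D : y² + D y = x³` over `ℚ`. -/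
def curve (D : ℕ) : WeierstrassCurve ℚ := ⟨0, 0, (D : ℚ), 0, 0⟩

/-- `D` is squarefree, not divisible by `3`, not `±1` modulo `9`, not divisible by the elements of `M`,
and divisible by exactly one prime that is `2` modulo `3`. -/
def InClass (M : Finset ℕ) (D : ℕ) : Prop :=
  Squarefree D ∧ ¬ 3 ∣ D ∧ D % 9 ≠ 1 ∧ D % 9 ≠ 8 ∧ (∀ l ∈ M, ¬ l ∣ D) ∧
    ∃ q : ℕ, q.Prime ∧ q % 3 = 2 ∧ q ∣ D ∧ ∀ p : ℕ, p.Prime → p ∣ D → p ≠ q → p % 3 = 1

/-- The number `D_t = D ∏_{l ∈ M} l ^ (t l)`, with exponents `0`, `1`, `2`. -/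
def twist (M : Finset ℕ) (D : ℕ) (t : {l : ℕ // l ∈ M} → ZMod 3) : ℕ :=
  D * ∏ l : {l : ℕ // l ∈ M}, l.1 ^ (t l).val

/-- `E_D(ℚ)` is finite and `Ш(E_D)[3^∞] = 0`. -/
def TrivialThree (D : ℕ) : Prop :=
  Finite (curve D).toAffine.Point ∧
    ∀ (n : ℕ) (x : Pool.Agent.TH841.SH.D.Sha (curve D)), 3 ^ n • x = 0 → x = 0

/-- `a_p = p + 1 - #E_D(𝔽_p)` -/
noncomputable def a (D p : ℕ) : ℤ :=
  (p : ℤ) - (Nat.card {q : ZMod p × ZMod p // q.2 ^ 2 + (D : ZMod p) * q.2 = q.1 ^ 3} : ℤ)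

/-- The L-function `L_E` of `E = E_D`, with the centre at `1/2`: the entire function with
`L_E(s - 1/2) = ∏_p (1 - a_p p^(-s) + [p ∤ Δ] p^(1 - 2 s))⁻¹` for `Re s > 3/2` (the product over all
the primes; `Δ = -27 D⁴` is the minimal discriminant). -/
def IsL (D : ℕ) (L : ℂ → ℂ) : Prop :=
  Differentiable ℂ L ∧ ∀ s : ℂ, 3 / 2 < s.re →
    HasProd (fun p : Nat.Primes => (1 - (a D p : ℂ) * ((p : ℕ) : ℂ) ^ (-s) +
      (if (p : ℕ) ∣ 3 * D then 0 else ((p : ℕ) : ℂ) ^ (1 - 2 * s)))⁻¹) (L (s - 1 / 2))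

/-- `Λ_E(s) = N^(s/2) (2 π)^(-s) Γ(s + 1/2) L_E(s)` -/
noncomputable def Lambda (N : ℝ) (L : ℂ → ℂ) (s : ℂ) : ℂ :=
  (N : ℂ) ^ (s / 2) * (2 * Real.pi : ℂ) ^ (-s) * Complex.Gamma (s + 1 / 2) * L s

/-- `w` is the sign of a functional equation `Λ_E(s) = w Λ_E(1 - s)`, in the critical strip, for some
positive real number `N` -/
def IsSign (L : ℂ → ℂ) (w : ℂ) : Prop :=
  ∃ N : ℝ, 0 < N ∧ ∀ s : ℂ, 0 < s.re → s.re < 1 → Lambda N L s = w * Lambda N L (1 - s)

/-- the rank of `E_D(ℚ)` -/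
noncomputable def rank (D : ℕ) : ℕ := Module.finrank ℤ (curve D).toAffine.Point

/-- The parity conjecture for `E = E_D`: the L-function `L_E` exists, it is not identically zero, its
order at `1/2` has the parity of the rank, and each sign `w` of a functional equation of `Λ_E` is
`(-1) ^ rank`. -/
def Parity (D : ℕ) : Prop :=
  (∃ L : ℂ → ℂ, IsL D L) ∧ ∀ L : ℂ → ℂ, IsL D L →
    (∃ r : ℕ, analyticOrderAt L (1 / 2) = r ∧ (Even r ↔ Even (rank D))) ∧
    ∀ w : ℂ, IsSign L w → w = (-1) ^ rank D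

/-- both sides of the parity conjecture are `+1`, in the strongest form: `L_E(1/2) ≠ 0` and `E_D(ℚ)` is
finite -/
def BothZero (D : ℕ) : Prop :=
  (∀ L : ℂ → ℂ, IsL D L → L (1 / 2) ≠ 0) ∧ Finite (curve D).toAffine.Point

/-- The parity conjecture holds for all the `3 ^ n` curves `E_{D_t}`, both sides being `+1`. -/
def AllParity (M : Finset ℕ) (D : ℕ) : Prop :=
  ∀ t : {l : ℕ // l ∈ M} → ZMod 3, Parity (twist M D t) ∧ BothZero (twist M D t)

/-- The number of the `t` such that `E_{D_t}(ℚ)` is finite and `Ш(E_{D_t})[3^∞] = 0`. -/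
noncomputable def count (M : Finset ℕ) (D : ℕ) : ℕ :=
  ((Finset.univ : Finset ({l : ℕ // l ∈ M} → ZMod 3)).filter fun t =>
    TrivialThree (twist M D t)).card

/-- The number of the `t` such that the parity conjecture holds for `E_{D_t}`, both sides being `+1`. -/
noncomputable def even (M : Finset ℕ) (D : ℕ) : ℕ :=
  ((Finset.univ : Finset ({l : ℕ // l ∈ M} → ZMod 3)).filter fun t =>
    Parity (twist M D t) ∧ BothZero (twist M D t)).card

/-- The number of the `D ≤ X` in the class with the property `Q`. -/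
noncomputable def num (M : Finset ℕ) (Q : ℕ → Prop) (X : ℕ) : ℕ :=
  ((Finset.Icc 1 X).filter fun D => InClass M D ∧ Q D).card

/-- `c = ∏_{i ≥ 1} (1 - 3^{-i})`. -/
noncomputable def c : ℝ := ∏' i : ℕ, (1 - (1 / 3 : ℝ) ^ (i + 1))

section one

open Pool.Agent.Y703.CT (WD EQ)

theorem E_eq (D : ℕ) : EQ (WD D) = curve D := by
  unfold Pool.Agent.Y703.CT.EQ Pool.Agent.Y703.CT.WD curve WeierstrassCurve.map
  simp

theorem three_iff (D : ℕ) : TrivialThree D ↔ Pool.Agent.Y703.CT.Triv3 D := by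
  unfold TrivialThree Pool.Agent.Y703.CT.Triv3
  rw [E_eq]

theorem a_eq (D p : ℕ) : Pool.Agent.W97.MT.ap (WD D) p = a D p := by
  unfold Pool.Agent.W97.MT.ap Pool.Agent.W97.MT.affCount a
  have h : ∀ q : ZMod p × ZMod p,
      (((WD D).map (Int.castRingHom (ZMod p))).toAffine.Equation q.1 q.2) ↔
        q.2 ^ 2 + (D : ZMod p) * q.2 = q.1 ^ 3 := by
    intro q
    rw [Pool.Agent.Y703.CX.eqn_iff]
    simp
  simp only [h]

theorem disc_dvd {p : ℕ} (hp : p.Prime) (D : ℕ) : (p : ℤ) ∣ (WD (D : ℤ)).Δ ↔ p ∣ 3 * D := by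
  have hpi : Prime (p : ℤ) := Nat.prime_iff_prime_int.1 hp
  rw [Pool.Agent.Y703.CX.WD_disc]
  have e : (-27 * (D : ℤ) ^ 4) = -(3 ^ 3 * (D : ℤ) ^ 4) := by ring
  have e2 : p ∣ 3 * D ↔ (p : ℤ) ∣ 3 * (D : ℤ) := by
    rw [← Int.natCast_dvd_natCast]
    push_cast
    exact Iff.rfl
  rw [e, dvd_neg, e2]
  constructor
  · intro h
    rcases hpi.dvd_or_dvd h with h | h
    · exact Dvd.dvd.mul_right (hpi.dvd_of_dvd_pow h) _
    · exact Dvd.dvd.mul_left (hpi.dvd_of_dvd_pow h) _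
  · intro h
    rcases hpi.dvd_or_dvd h with h | h
    · exact Dvd.dvd.mul_right (dvd_pow h (by norm_num)) _
    · exact Dvd.dvd.mul_left (dvd_pow h (by norm_num)) _

theorem isL_iff (D : ℕ) (f : ℂ → ℂ) :
    Pool.Agent.Y703.CT.IsL (WD D) f ↔ IsL D (fun s => f (s + 1 / 2)) := by
  unfold Pool.Agent.Y703.CT.IsL IsL
  have e1 : (fun (s : ℂ) (p : Nat.Primes) => (1 - (a D p : ℂ) * ((p : ℕ) : ℂ) ^ (-s) +
      (if (p : ℕ) ∣ 3 * D then 0 else ((p : ℕ) : ℂ) ^ (1 - 2 * s)))⁻¹) =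
      fun (s : ℂ) (p : Nat.Primes) => (1 - (Pool.Agent.W97.MT.ap (WD D) p : ℂ) *
        ((p : ℕ) : ℂ) ^ (-s) +
      (if ((p : ℕ) : ℤ) ∣ (WD D).Δ then 0 else ((p : ℕ) : ℂ) ^ (1 - 2 * s)))⁻¹ := by
    funext s p
    rw [a_eq]
    have h := disc_dvd p.2 D
    by_cases hd : (p : ℕ) ∣ 3 * D
    · rw [if_pos hd, if_pos (h.2 hd)]
    · rw [if_neg hd, if_neg (fun h' => hd (h.1 h'))]
  have e2 : ∀ (s : ℂ), (fun (p : Nat.Primes) => (1 - (a D p : ℂ) * ((p : ℕ) : ℂ) ^ (-s) +
      (if (p : ℕ) ∣ 3 * D then 0 else ((p : ℕ) : ℂ) ^ (1 - 2 * s)))⁻¹) =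
      fun (p : Nat.Primes) => (1 - (Pool.Agent.W97.MT.ap (WD D) p : ℂ) *
        ((p : ℕ) : ℂ) ^ (-s) +
      (if ((p : ℕ) : ℤ) ∣ (WD D).Δ then 0 else ((p : ℕ) : ℂ) ^ (1 - 2 * s)))⁻¹ :=
    fun s => congrFun e1 s
  constructor
  · rintro ⟨h1, h2⟩
    refine ⟨h1.comp (by fun_prop), fun s hs => ?_⟩
    rw [e2 s]
    have := h2 s hs
    simpa using this
  · rintro ⟨h1, h2⟩
    refine ⟨?_, fun s hs => ?_⟩
    · have h3 : f = (fun s => f (s + 1 / 2)) ∘ fun s => s - 1 / 2 := by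
        funext s
        simp
      rw [h3]
      exact h1.comp (by fun_prop)
    · have := h2 s hs
      rw [e2 s] at this
      simpa using this

theorem isL_unique {D : ℕ} {L M : ℂ → ℂ} (hL : IsL D L) (hM : IsL D M) : L = M := by
  have h1 : AnalyticOnNhd ℂ L Set.univ := fun z _ => hL.1.analyticAt z
  have h2 : AnalyticOnNhd ℂ M Set.univ := fun z _ => hM.1.analyticAt z
  refine h1.eq_of_eventuallyEq h2 (z₀ := 2) ?_
  have h3 : {s : ℂ | 1 < s.re} ∈ nhds (2 : ℂ) :=
    (isOpen_lt continuous_const Complex.continuous_re).mem_nhds (by simp)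
  filter_upwards [h3] with s hs
  have hs : 1 < s.re := hs
  have h4 : (3 : ℝ) / 2 < (s + 1 / 2).re := by
    have : (s + 1 / 2).re = s.re + 1 / 2 := by
      simp
    rw [this]
    linarith
  have h5 := hL.2 _ h4
  have h6 := hM.2 _ h4
  have h7 := h5.unique h6
  simpa using h7

theorem sign_one {L : ℂ → ℂ} (h : L (1 / 2) ≠ 0) {w : ℂ} (hw : IsSign L w) : w = 1 := by
  obtain ⟨N, hN, h1⟩ := hw
  have h2 := h1 (1 / 2) (by norm_num) (by norm_num)
  have e : (1 : ℂ) - 1 / 2 = 1 / 2 := by norm_num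
  rw [e] at h2
  have h3 : Lambda N L (1 / 2) ≠ 0 := by
    unfold Lambda
    refine mul_ne_zero (mul_ne_zero (mul_ne_zero ?_ ?_) ?_) h
    · have : (N : ℂ) ≠ 0 := by exact_mod_cast hN.ne'
      exact (Complex.cpow_ne_zero_iff.2 (Or.inl this))
    · have : (2 * Real.pi : ℂ) ≠ 0 := by
        have := Real.pi_ne_zero
        exact_mod_cast mul_ne_zero two_ne_zero this
      exact (Complex.cpow_ne_zero_iff.2 (Or.inl this))
    · apply Complex.Gamma_ne_zero_of_re_pos
      norm_num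
  have h4 : (w - 1) * Lambda N L (1 / 2) = 0 := by linear_combination -h2
  exact sub_eq_zero.1 ((mul_eq_zero.1 h4).resolve_right h3)

theorem exists_L {D : ℕ} (hD : Pool.Agent.Y703.CT.Cls D) : ∃ L, IsL D L := by
  obtain ⟨-, f, hf, -⟩ := Pool.Agent.Y703.CT.fin_all hD
  exact ⟨_, (isL_iff D f).1 hf⟩

theorem both {D : ℕ} (hC : Pool.Agent.Y703.CT.Cls D) (h : TrivialThree D) : BothZero D := by
  have hT := (three_iff D).1 h
  obtain ⟨-, f, hf, u, hu, -, h1, -⟩ := Pool.Agent.Y703.CT.fin_all hC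
  have hU := h1.2 hT
  have hf1 := Pool.Agent.Y703.CX.val_ne hC hT.1 hU.1 hu
  refine ⟨fun L hL => ?_, h.1⟩
  rw [isL_unique hL ((isL_iff D f).1 hf)]
  have e : (1 : ℂ) / 2 + 1 / 2 = 1 := by norm_num
  show f (1 / 2 + 1 / 2) ≠ 0
  rw [e]
  exact hf1

theorem parity_of {D : ℕ} (hD : Pool.Agent.Y703.CT.Cls D) (h : BothZero D) : Parity D := by
  obtain ⟨h1, h2⟩ := h
  have hr : rank D = 0 := by
    unfold rank
    exact Pool.Agent.Y687.finrank_zero_of_finite h2
  refine ⟨exists_L hD, fun L hL => ⟨⟨0, ?_, by rw [hr]⟩, fun w hw => ?_⟩⟩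
  · rw [Nat.cast_zero]
    exact (hL.1.analyticAt _).analyticOrderAt_eq_zero.2 (h1 L hL)
  · rw [hr, pow_zero]
    exact sign_one (h1 L hL) hw

end one

section proof

open Pool.Agent.R432.JG (Cl cl_iff triv_iff tw_cls pre_of law_pat twN)
open Pool.Agent.R413.MQ.Bin (cnt cnt_card cnt_congr N law_eq lln cnt_union)

theorem num_eq (M : Finset ℕ) (Q : ℕ → Prop) (X : ℕ) : num M Q X = cnt (Cl M) Q X := by
  unfold num
  symm
  refine cnt_card fun D => ?_
  rw [Finset.mem_filter, show InClass M D ↔ Cl M D from (cl_iff M D).symm]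

theorem num_mono (M : Finset ℕ) {Q R : ℕ → Prop} (h : ∀ D, InClass M D → Q D → R D) (X : ℕ) :
    num M Q X ≤ num M R X := by
  refine Finset.card_le_card fun D hD => ?_
  rw [Finset.mem_filter] at hD ⊢
  exact ⟨hD.1, hD.2.1, h D hD.2.1 hD.2.2⟩

theorem triv_eq {M : Finset ℕ} (hM : ∀ l ∈ M, l.Prime ∧ l % 9 = 1) {D : ℕ} (hD : Cl M D)
    (t : {l : ℕ // l ∈ M} → ZMod 3) :
    TrivialThree (twist M D t) ↔ Pool.Agent.Y703.CT.NoSplit (twN D M t) :=
  triv_iff (tw_cls (t := t) hD.2.1 (pre_of hM hD))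

theorem count_eq {M : Finset ℕ} (hM : ∀ l ∈ M, l.Prime ∧ l % 9 = 1) {D : ℕ} (hD : Cl M D) :
    count M D = N (Finset.univ : Finset ({l : ℕ // l ∈ M} → ZMod 3))
      (fun t D => Pool.Agent.Y703.CT.NoSplit (twN D M t)) D := by
  unfold count N
  refine congrArg Finset.card ?_
  ext t
  rw [Finset.mem_filter, Finset.mem_filter]
  exact and_congr_right fun _ => triv_eq hM hD t

theorem count_le {M : Finset ℕ} (hM : ∀ l ∈ M, l.Prime ∧ l % 9 = 1) {D : ℕ} (hD : Cl M D) :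
    count M D ≤ even M D := by
  refine Finset.card_le_card fun t ht => ?_
  rw [Finset.mem_filter] at ht ⊢
  have hC := tw_cls (t := t) hD.2.1 (pre_of hM hD)
  have h := both hC ht.2
  exact ⟨ht.1, parity_of hC h, h⟩

end proof

open Pool.Agent.R432.JG (Cl cl_iff law_pat twN tw_cls pre_of law_cnt)
open Pool.Agent.R413.MQ.Bin (cnt cnt_card cnt_congr N law_eq lln cnt_union)

/-- **Main theorem.** -/
theorem result :
    (∀ M : Finset ℕ, (∀ l ∈ M, l.Prime ∧ l % 9 = 1) →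
      (∃ c' : ℝ, 0 < c' ∧ ∃ X₀ : ℕ, ∀ X : ℕ, X₀ ≤ X →
        c' * X / Real.sqrt (Real.log X) ≤ (num M (fun _ => True) X : ℝ)) ∧
      (∀ D : ℕ, InClass M D → ∀ t : {l : ℕ // l ∈ M} → ZMod 3, TrivialThree (twist M D t) →
        Parity (twist M D t) ∧ BothZero (twist M D t)) ∧
      (∀ k : ℕ, Tendsto (fun X : ℕ => (num M (fun D => count M D = k) X : ℝ) /
        (num M (fun _ => True) X : ℝ)) atTop
        (𝓝 (((3 ^ M.card).choose k : ℝ) * c ^ k * (1 - c) ^ (3 ^ M.card - k)))) ∧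
      (∀ ε : ℝ, 0 < ε → ∃ X₀ : ℕ, ∀ X : ℕ, X₀ ≤ X →
        (c ^ 3 ^ M.card - ε) * (num M (fun _ => True) X : ℝ) ≤
          (num M (AllParity M) X : ℝ))) ∧
    (∀ ε : ℝ, 0 < ε → ∃ n₀ : ℕ, ∀ M : Finset ℕ, (∀ l ∈ M, l.Prime ∧ l % 9 = 1) → n₀ ≤ M.card →
      ∃ X₀ : ℕ, ∀ X : ℕ, X₀ ≤ X →
        (1 - ε) * (num M (fun _ => True) X : ℝ) ≤
          (num M (fun D => (c - ε) * 3 ^ M.card ≤ (even M D : ℝ)) X : ℝ)) ∧
    (0.56 : ℝ) < c ∧ c < 1 := by
  have hc1 : (0.56 : ℝ) < c := Pool.Agent.R432.JG.c3_gt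
  have hc2 : c < 1 := Pool.Agent.Y461.CX.t_C3.2.2.1
  have hc0 : (0 : ℝ) < c := by linarith
  have hcard : ∀ M : Finset ℕ, (Finset.univ : Finset ({l : ℕ // l ∈ M} → ZMod 3)).card =
      3 ^ M.card := fun M => by
    rw [Finset.card_univ, Fintype.card_fun, ZMod.card, Fintype.card_coe]
  refine ⟨fun M hM => ⟨?_, fun D hD t ht => ?_, fun k => ?_, fun ε hε => ?_⟩, fun ε hε => ?_,
    hc1, hc2⟩
  · obtain ⟨c₀, hc₀, X₀, hlow⟩ := Pool.Agent.R432.JG.low hM
    refine ⟨c₀, hc₀, X₀, fun X hX => (hlow X hX).trans (le_of_eq ?_)⟩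
    have : num M (fun _ => True) X = ((Finset.Icc 1 X).filter fun D => Cl M D).card := by
      rw [num_eq]
      refine cnt_card fun D => ?_
      rw [Finset.mem_filter, and_iff_left trivial]
    rw [this]
  · have hC : Cl M D := (cl_iff M D).2 hD
    have h1 := tw_cls (t := t) hC.2.1 (pre_of hM hC)
    have h2 := both h1 ht
    exact ⟨parity_of h1 h2, h2⟩
  · have h := law_eq (law_pat hM Finset.univ) k
    rw [hcard] at h
    have h' : Tendsto (fun X : ℕ => (num M (fun D => count M D = k) X : ℝ) /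
        (num M (fun _ => True) X : ℝ)) atTop
        (𝓝 (((3 ^ M.card).choose k : ℝ) * Pool.Agent.Y703.CX.c3 ^ k *
          (1 - Pool.Agent.Y703.CX.c3) ^ (3 ^ M.card - k))) := by
      refine h.congr fun X => ?_
      have e := cnt_congr (Fam := Cl M) (Q := fun D => count M D = k)
        (R := fun D => N (Finset.univ : Finset ({l : ℕ // l ∈ M} → ZMod 3))
          (fun t D => Pool.Agent.Y703.CT.NoSplit (twN D M t)) D = k)
        (fun D hD => by rw [count_eq hM hD]) X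
      rw [num_eq, num_eq, e]
    exact h'
  · have hlaw : Tendsto (fun X : ℕ => (cnt (Cl M) (fun D => ∀ t ∈ (Finset.univ :
        Finset ({l : ℕ // l ∈ M} → ZMod 3)), Pool.Agent.Y703.CT.NoSplit (twN D M t)) X : ℝ) /
        (cnt (Cl M) (fun _ => True) X : ℝ)) atTop (𝓝 (c ^ 3 ^ M.card)) := by
      have h := law_cnt hM Finset.univ
      rw [hcard M] at h
      exact h
    have hlt : c ^ 3 ^ M.card - ε < c ^ 3 ^ M.card := by linarith
    obtain ⟨X₀, h⟩ := Filter.eventually_atTop.1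
      ((hlaw.eventually (lt_mem_nhds hlt)).and (Pool.Agent.R432.JG.ev_pos hM))
    refine ⟨X₀, fun X hX => ?_⟩
    obtain ⟨h2, h3⟩ := h X hX
    have e2 : cnt (Cl M) (fun _ => True) X = ((Finset.Icc 1 X).filter fun D => Cl M D).card := by
      refine cnt_card fun D => ?_
      rw [Finset.mem_filter, and_iff_left trivial]
    rw [← e2] at h3
    rw [lt_div_iff₀ h3] at h2
    rw [num_eq M (fun _ => True) X]
    refine h2.le.trans ?_
    have e1 : cnt (Cl M) (fun D => ∀ t ∈ (Finset.univ :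
        Finset ({l : ℕ // l ∈ M} → ZMod 3)), Pool.Agent.Y703.CT.NoSplit (twN D M t)) X ≤
        num M (AllParity M) X := by
      have e3 := cnt_congr (Fam := Cl M)
        (Q := fun D => ∀ t ∈ (Finset.univ : Finset ({l : ℕ // l ∈ M} → ZMod 3)),
          Pool.Agent.Y703.CT.NoSplit (twN D M t))
        (R := fun D => ∀ t : {l : ℕ // l ∈ M} → ZMod 3, TrivialThree (twist M D t))
        (fun D hD => by
          constructor
          · intro h4 t
            exact (triv_eq hM hD t).2 (h4 t (Finset.mem_univ t))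
          · intro h4 t _
            exact (triv_eq hM hD t).1 (h4 t)) X
      rw [e3, ← num_eq]
      refine num_mono M (fun D hD h4 t => ?_) X
      have hC : Cl M D := (cl_iff M D).2 hD
      have h1 := tw_cls (t := t) hC.2.1 (pre_of hM hC)
      have h5 := both h1 (h4 t)
      exact ⟨parity_of h1 h5, h5⟩
    exact_mod_cast e1
  · obtain ⟨n₀, hn₀⟩ := exists_nat_gt (2 * (c * (1 - c)) / (ε ^ 3))
    refine ⟨n₀, fun M hM hn => ?_⟩
    have h3n : (n₀ : ℝ) < ((3 ^ M.card : ℕ) : ℝ) := by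
      have h1 : M.card < 3 ^ M.card := Nat.lt_pow_self (by norm_num)
      exact_mod_cast lt_of_le_of_lt hn h1
    have hT0 : (0 : ℝ) < ((3 ^ M.card : ℕ) : ℝ) := by positivity
    have hne : (Finset.univ : Finset ({l : ℕ // l ∈ M} → ZMod 3)).Nonempty := ⟨0, Finset.mem_univ _⟩
    obtain ⟨X₀, h⟩ := lln hne hc0.le hc2.le (law_pat hM Finset.univ) hε (show 0 < ε / 2 by linarith)
    refine ⟨X₀, fun X hX => ?_⟩
    have h1 := h X hX
    rw [hcard] at h1
    have h2 : c * (1 - c) / (ε ^ 2 * ((3 ^ M.card : ℕ) : ℝ)) ≤ ε / 2 := by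
      have h3 := hn₀.trans h3n
      rw [div_lt_iff₀ (by positivity)] at h3
      rw [div_le_iff₀ (by positivity)]
      nlinarith
    have hA : (0 : ℝ) ≤ (cnt (Cl M) (fun _ => True) X : ℝ) := Nat.cast_nonneg _
    have h4 := h1.trans (mul_le_mul_of_nonneg_right
      (b := c * (1 - c) / (ε ^ 2 * ((3 ^ M.card : ℕ) : ℝ)) + ε / 2) (c := ε) (by linarith) hA)
    have h5 := cnt_union (Fam := Cl M)
      (Q := fun D => ε ≤ |(N (Finset.univ : Finset ({l : ℕ // l ∈ M} → ZMod 3))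
        (fun t D => Pool.Agent.Y703.CT.NoSplit (twN D M t)) D : ℝ) / ((3 ^ M.card : ℕ) : ℝ) - c|)
      (R := fun D => (c - ε) * 3 ^ M.card ≤ (even M D : ℝ)) (fun D hD => by
        by_cases h6 : ε ≤ |(N (Finset.univ : Finset ({l : ℕ // l ∈ M} → ZMod 3))
          (fun t D => Pool.Agent.Y703.CT.NoSplit (twN D M t)) D : ℝ) / ((3 ^ M.card : ℕ) : ℝ) - c|
        · exact Or.inl h6
        · refine Or.inr ?_
          rw [not_le, ← count_eq hM hD] at h6
          have h7 := (abs_lt.1 h6).1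
          have h8 : (c - ε) * ((3 ^ M.card : ℕ) : ℝ) ≤ (count M D : ℝ) := by
            have h9 : c - ε ≤ (count M D : ℝ) / ((3 ^ M.card : ℕ) : ℝ) := by linarith
            rwa [le_div_iff₀ hT0] at h9
          have h10 : (count M D : ℝ) ≤ even M D := by exact_mod_cast count_le hM hD
          have h11 := h8.trans h10
          push_cast at h11
          exact h11) X
    have h6 : (cnt (Cl M) (fun _ => True) X : ℝ) ≤
        (cnt (Cl M) (fun D => ε ≤ |(N (Finset.univ : Finset ({l : ℕ // l ∈ M} → ZMod 3))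
        (fun t D => Pool.Agent.Y703.CT.NoSplit (twN D M t)) D : ℝ) / ((3 ^ M.card : ℕ) : ℝ) -
          c|) X : ℝ) +
        (cnt (Cl M) (fun D => (c - ε) * 3 ^ M.card ≤ (even M D : ℝ)) X : ℝ) := by exact_mod_cast h5
    rw [num_eq, num_eq]
    have h7 : (cnt (Cl M) (fun D => ε ≤ |(N (Finset.univ : Finset ({l : ℕ // l ∈ M} → ZMod 3))
        (fun t D => Pool.Agent.Y703.CT.NoSplit (twN D M t)) D : ℝ) / ((3 ^ M.card : ℕ) : ℝ) -
          c|) X : ℝ) ≤ ε * (cnt (Cl M) (fun _ => True) X : ℝ) := h4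
    linarith

end Pool.Agent.Results.MP_577099_nt.ManyCubicTwistsParity
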