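import Mathlib
import Pool.Agent.R395.CT.Light
import Pool.Agent.R338.CT.Marg

/-!
# The joint law of the `3 ^ r` cubic twists by a tuple of `r + 1` primes from arbitrary sets

`E_D : y² + D y = x³` over `ℚ`. For a tuple of primes `p₀, …, p_r`, `p₀ ≡ 2, 5` and `p₁, …, p_r ≡ 1` modulo
`9`, we consider the `3 ^ r` twists `E_D`, `D = p₀ p₁^{t₁} ⋯ p_r^{t_r}`, `t_i = 0, 1, 2`. The primes
`pᵢ` run through arbitrary disjoint sets `Pᵢ` of such primes up to `Xᵢ`. For each of the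
`2 ^ (3 ^ r)` patterns, the number of the tuples for which `E_D(ℚ)` is finite and
`Ш(E_D/ℚ)[3^∞] = 0` exactly for the `t` in the pattern is the proportion of the pattern in an explicit
model of random matrices over `𝔽₃`, times the number of all tuples, up to a power saving. For each single
`t` with `k` nonzero entries the proportion is `(1 - 1/3) (1 - 1/9) ⋯ (1 - 1/3^k)`. The property
holds for all `3 ^ r` twists at once exactly if `p₀` is not a cube modulo the `pᵢ` and these are cubes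
modulo each other; the proportion of these tuples is `2 ^ r / 3 ^ (r ^ 2)`.

By the theorem of T. and V. Dokchitser on the `3`-parity over `ℚ` (known, not used in this file), the
parity conjecture holds for a curve over `ℚ` with finite `Ш[3^∞]`; so it holds, with rank `0` and root number
`+1`, for the curves counted here.

The criterion for a single `D` (`Pool.Agent.R395.CT.triv3_iff`) is joint work (project CT, helper703 and
others), as are the bilinear sums (helper261, helper779), the equidistribution in a box (helper419), the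
translation for cube-free numbers (helper710, helper419), which were made for the limits over all `D`
(projects CX, CF).
-/

set_option autoImplicit false

open scoped Classical

namespace Pool.Agent.Results.MP_577099_nt.TwistsOfTuples

open Finset

/-- The curve `E_D : y² + D y = x³` over `ℚ`. -/
def E (D : ℕ) : WeierstrassCurve ℚ := { a₁ := 0, a₂ := 0, a₃ := (D : ℚ), a₄ := 0, a₆ := 0 }

/-- `E_D(ℚ)` is finite and `Ш(E_D/ℚ)[3^∞] = 0`. -/
def TrivialThree (D : ℕ) : Prop :=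
  Finite (E D).toAffine.Point ∧
    ∀ (n : ℕ) (x : Pool.Agent.TH841.SH.D.Sha (E D)), 3 ^ n • x = 0 → x = 0

/-- `P 0` consists of primes `≡ 2, 5` modulo `9`, the other `P i` of primes `≡ 1` modulo `9`, those of
`P i` are at most `X i`, the sets are disjoint, and `1 ≤ z ≤ X i` for all `i`. -/
structure Sets {r : ℕ} (P : Fin (r + 1) → Finset ℕ) (X : Fin (r + 1) → ℕ) (z : ℕ) : Prop where
  one_le : 1 ≤ z
  z_le : ∀ i, z ≤ X i
  first : ∀ p ∈ P 0, p % 9 = 2 ∨ p % 9 = 5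
  others : ∀ i, i ≠ 0 → ∀ p ∈ P i, p % 9 = 1
  primes : ∀ i, ∀ p ∈ P i, p.Prime ∧ p ≤ X i
  disjoint : ∀ i l, i ≠ l → Disjoint (P i) (P l)

/-- The number `p₀ p₁^{t₁} ⋯ p_r^{t_r}` with exponents `tᵢ = 0, 1, 2`. -/
def twist {r : ℕ} (p : Fin (r + 1) → ℕ) (t : Fin r → ZMod 3) : ℕ :=
  p 0 * ∏ i : Fin r, p i.succ ^ (t i).val

/-- The number of the tuples `p` with `p i ∈ P i` with the property `Q`. -/
noncomputable def num {r : ℕ} (P : Fin (r + 1) → Finset ℕ) (Q : (Fin (r + 1) → ℕ) → Prop) : ℕ :=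
  {p : Fin (r + 1) → ℕ | (∀ i, p i ∈ P i) ∧ Q p}.ncard

/-- Put `e₀ = 1` and `eⱼ = tⱼ`. The system `∑ⱼ (cⱼ - cᵢ) eⱼ mᵢⱼ = 0`, one equation for each `i ≥ 1` with
`tᵢ ≠ 0`, has only the solutions with `cᵢ = c₀` for these `i`. -/
def Rigid {r : ℕ} (t : Fin r → ZMod 3) (m : Fin r → Fin (r + 1) → ZMod 3) : Prop :=
  ∀ c : Fin (r + 1) → ZMod 3, (∀ i : Fin r, t i ≠ 0 →
    ∑ j, (c j - c i.succ) * ((Fin.cons 1 t : Fin (r + 1) → ZMod 3) j * m i j) = 0) →
      ∀ i : Fin r, t i ≠ 0 → c i.succ = c 0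

/-- The proportion, among the `3 ^ (r ^ 2)` matrices `mᵢⱼ` (`1 ≤ i ≤ r`, `0 ≤ j ≤ r`) over `𝔽₃` with
`mᵢᵢ = 0`, of those that are rigid exactly for the `t` in `V`. -/
noncomputable def share {r : ℕ} (V : Set (Fin r → ZMod 3)) : ℝ :=
  ({m : Fin r → Fin (r + 1) → ZMod 3 | (∀ i, m i i.succ = 0) ∧
    ∀ t, (Rigid t m ↔ t ∈ V)}.ncard : ℝ) / 3 ^ (r ^ 2)

/-- `(1 - 1/3) (1 - 1/9) ⋯ (1 - 1/3^k)`. -/
noncomputable def single (k : ℕ) : ℝ := ∏ i ∈ range k, (1 - 1 / (3 : ℝ) ^ (i + 1))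

/-- `p₀` is not a cube modulo the other primes, and these are cubes modulo each other. -/
def Linked {r : ℕ} (p : Fin (r + 1) → ℕ) : Prop :=
  (∀ i, i ≠ 0 → ¬ ∃ x : ℤ, (p i : ℤ) ∣ (p 0 : ℤ) - x ^ 3) ∧
    ∀ i j, i ≠ 0 → j ≠ 0 → j ≠ i → ∃ x : ℤ, (p i : ℤ) ∣ (p j : ℤ) - x ^ 3

theorem E_eq (D : ℕ) : Pool.Agent.Y703.CT.EQ (Pool.Agent.Y703.CT.WD D) = E D := by
  unfold Pool.Agent.Y703.CT.EQ Pool.Agent.Y703.CT.WD E WeierstrassCurve.map
  simp

theorem three_iff (D : ℕ) : TrivialThree D ↔ Pool.Agent.R395.CT.Triv3 D := by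
  unfold TrivialThree Pool.Agent.R395.CT.Triv3
  rw [E_eq]

theorem Sets.to {r : ℕ} {P : Fin (r + 1) → Finset ℕ} {X : Fin (r + 1) → ℕ} {z : ℕ}
    (hS : Sets P X z) : Pool.Agent.R338.CT.Sets P X z ∧ Pool.Agent.R338.CT.Nine P :=
  ⟨⟨hS.one_le, hS.z_le, fun p hp => by have := hS.first p hp; omega,
    fun i hi p hp => by have := hS.others i hi p hp; omega, hS.primes, hS.disjoint⟩,
    ⟨hS.first, hS.others⟩⟩

theorem triv_iff {r : ℕ} {P : Fin (r + 1) → Finset ℕ} {X : Fin (r + 1) → ℕ} {z : ℕ}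
    (hS : Sets P X z) {p : Fin (r + 1) → ℕ} (hp : ∀ i, p i ∈ P i) (t : Fin r → ZMod 3) :
    TrivialThree (twist p t) ↔ Pool.Agent.Y703.CT.NoSplit (Pool.Agent.R338.CT.tw p t) := by
  rw [three_iff]
  exact Pool.Agent.R395.CT.triv3_iff (Pool.Agent.R338.CT.tw_iff hS.to.1 hS.to.2 hp t).1

/-- **Main theorem.** -/
theorem result : ∃ C : ℝ, 0 < C ∧
    ∀ (r : ℕ) (P : Fin (r + 1) → Finset ℕ) (X : Fin (r + 1) → ℕ) (z : ℕ), Sets P X z →
      (∀ V : Set (Fin r → ZMod 3),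
        |(num P (fun p => ∀ t, (TrivialThree (twist p t) ↔ t ∈ V)) : ℝ) -
          share V * ∏ i, ((P i).card : ℝ)| ≤
        3 ^ (r ^ 2) * C * (z : ℝ) ^ (-(1 / 12 : ℝ)) * ∏ i, (X i : ℝ)) ∧
      (∀ t : Fin r → ZMod 3,
        |(num P (fun p => TrivialThree (twist p t)) : ℝ) -
          single (univ.filter fun i => t i ≠ 0).card * ∏ i, ((P i).card : ℝ)| ≤
        3 ^ (r ^ 2) * C * (z : ℝ) ^ (-(1 / 12 : ℝ)) * ∏ i, (X i : ℝ)) ∧
      (∀ p : Fin (r + 1) → ℕ, (∀ i, p i ∈ P i) →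
        ((∀ t, TrivialThree (twist p t)) ↔ Linked p)) ∧
      share (Set.univ : Set (Fin r → ZMod 3)) = 2 ^ r / 3 ^ (r ^ 2) := by
  obtain ⟨C₁, hC1, hC⟩ := Pool.Agent.R338.CT.joint
  obtain ⟨C₂, hC2, hM⟩ := Pool.Agent.R338.CT.marg
  refine ⟨max C₁ C₂, lt_of_lt_of_le (by linarith) (le_max_left _ _),
    fun r P X z hS => ⟨fun V => ?_, fun t => ?_, fun p hp => ?_, ?_⟩⟩
  · have h1 := hC r P X z hS.to.1 hS.to.2 V
    have e1 : {p : Fin (r + 1) → ℕ | (∀ i, p i ∈ P i) ∧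
        ∀ t, (Pool.Agent.Y703.CT.NoSplit (Pool.Agent.R338.CT.tw p t) ↔ t ∈ V)} =
        {p : Fin (r + 1) → ℕ | (∀ i, p i ∈ P i) ∧ ∀ t, (TrivialThree (twist p t) ↔ t ∈ V)} := by
      ext p
      simp only [Set.mem_ofPred_eq]
      refine and_congr_right fun hp => forall_congr' fun t => ?_
      rw [triv_iff hS hp t]
    rw [e1] at h1
    unfold num share
    rw [sq]
    refine h1.trans (le_trans (mul_le_mul_of_nonneg_left (mul_le_mul_of_nonneg_right
      (mul_le_mul_of_nonneg_right (le_max_left C₁ C₂) (by positivity)) (by positivity))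
      (by positivity)) (le_of_eq ?_))
    ring
  · have h1 := hM r P X z hS.to.1 hS.to.2 t
    have e1 : {p : Fin (r + 1) → ℕ | (∀ i, p i ∈ P i) ∧
        Pool.Agent.Y703.CT.NoSplit (Pool.Agent.R338.CT.tw p t)} =
        {p : Fin (r + 1) → ℕ | (∀ i, p i ∈ P i) ∧ TrivialThree (twist p t)} := by
      ext p
      simp only [Set.mem_ofPred_eq]
      exact and_congr_right fun hp => (triv_iff hS hp t).symm
    rw [e1] at h1
    unfold num single
    rw [sq]
    refine h1.trans (le_trans (mul_le_mul_of_nonneg_left (mul_le_mul_of_nonneg_right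
      (mul_le_mul_of_nonneg_right (le_max_right C₁ C₂) (by positivity)) (by positivity))
      (by positivity)) (le_of_eq ?_))
    ring
  · rw [show Linked p ↔ Pool.Agent.R338.CT.Linked p from Iff.rfl,
      ← Pool.Agent.R338.CT.all_nosplit_iff hS.to.1 hp hS.to.2]
    exact forall_congr' fun t => triv_iff hS hp t
  · unfold share
    have h1 := Pool.Agent.R338.CT.all_card r
    have e1 : {m : Fin r → Fin (r + 1) → ZMod 3 | (∀ i, m i i.succ = 0) ∧
        ∀ t, (Rigid t m ↔ t ∈ (Set.univ : Set (Fin r → ZMod 3)))} =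
        {m : Fin r → Fin (r + 1) → ZMod 3 | (∀ i, m i i.succ = 0) ∧
          ∀ t, Pool.Agent.R338.CT.Rigid t m} := by
      ext m
      simp only [Set.mem_ofPred_eq, Set.mem_univ, iff_true]
      exact Iff.rfl
    rw [e1, h1]
    push_cast
    rfl

end Pool.Agent.Results.MP_577099_nt.TwistsOfTuples
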